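import Pool.Agent.W58.GU.Stm

/-!
GU-MUL: multipliers.
-/

set_option autoImplicit false

namespace Pool.Agent.W140.GU
open Finset Filter Topology Pool.Agent.W58.GU

section
variable {P : Par} {X : Type} [NormedAddCommGroup X] [NormedSpace ℝ X]

theorem e'_fsum (M : Model P X) (F : Finset (ℕ ⊕ ℕ)) (c : ℕ ⊕ ℕ → ℝ) (i : ℕ ⊕ ℕ) :
    M.e' i (∑ k ∈ F, c k • M.e k) = if i ∈ F then c i else 0 := by
  classical
  rw [map_sum]
  simp only [map_smul, M.bi, smul_eq_mul, mul_ite, mul_one, mul_zero, Finset.sum_ite_eq]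

theorem sumMul (M : Model P X) [CompleteSpace X] (d : ℕ ⊕ ℕ → ℝ) (hd : ∀ i, |d i| ≤ 1) (x : X) :
    Summable (fun i => (d i * M.e' i x) • M.e i) := by
  have h0 : Summable (fun i => M.e' i x • M.e i) := (M.hs x).summable
  rw [summable_iff_vanishing_norm] at h0 ⊢
  intro ε hε
  obtain ⟨s, hs⟩ := h0 ε hε
  refine ⟨s, fun t ht => lt_of_le_of_lt ?_ (hs t ht)⟩
  refine M.lat (fun i => ?_)
  rw [e'_fsum M t (fun i => d i * M.e' i x), e'_fsum M t (fun i => M.e' i x)]
  split_ifs
  · rw [abs_mul]
    exact mul_le_of_le_one_left (abs_nonneg _) (hd i)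
  · exact le_refl _

end

theorem mul : S_MUL := by
  intro P X _ _ _ M d hd
  have hsum := fun x => sumMul M d hd x
  set D : X → X := fun x => ∑' i, (d i * M.e' i x) • M.e i with hD
  have hco : ∀ i x, M.e' i (D x) = d i * M.e' i x := by
    intro i x
    have h1 : HasSum (fun k => (d k * M.e' k x) • M.e k) (D x) := (hsum x).hasSum
    have h2 : HasSum (fun k => M.e' i ((d k * M.e' k x) • M.e k)) (M.e' i (D x)) :=
      h1.mapL (M.e' i)
    have h3 : HasSum (fun k => M.e' i ((d k * M.e' k x) • M.e k)) (M.e' i ((d i * M.e' i x) • M.e i)) := by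
      apply hasSum_single
      intro k hk
      rw [map_smul, M.bi, if_neg (Ne.symm hk), smul_zero]
    have h4 := h2.unique h3
    rw [h4, map_smul, M.bi, if_pos rfl, smul_eq_mul, mul_one]
  have hn : ∀ x, ‖D x‖ ≤ ‖x‖ := by
    intro x
    refine M.lat (fun i => ?_)
    rw [hco, abs_mul]
    exact mul_le_of_le_one_left (abs_nonneg _) (hd i)
  let L : X →ₗ[ℝ] X :=
    { toFun := D
      map_add' := by
        intro x y
        refine M.ext (fun i => ?_)
        rw [hco, map_add, map_add, hco, hco]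
        ring
      map_smul' := by
        intro c x
        refine M.ext (fun i => ?_)
        rw [hco, map_smul, map_smul, hco]
        simp only [smul_eq_mul, RingHom.id_apply]
        ring }
  refine ⟨L.mkContinuous 1 (fun x => ?_), fun x => ?_, fun i x => ?_⟩
  · rw [one_mul]; exact hn x
  · exact hn x
  · exact hco i x

end Pool.Agent.W140.GU
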