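import Pool.Agent.W58.GU.Stm

/-!
GU-NSQ: the square of `X` is not complemented in `X`.
-/

set_option autoImplicit false

namespace Pool.Agent.W140.GU
open Finset Filter Topology Pool.Agent.W58.GU

section
variable {P : Par} {X : Type} [NormedAddCommGroup X] [NormedSpace ℝ X]

theorem abs_er (M : Model P X) (n : ℕ) (x : X) : |M.e' (Sum.inr n) x| ≤ ‖x‖ := by
  have h := M.n2 x (Finsupp.single n 1) (InK.single P n)
  rw [pr_single] at h
  simpa using h

theorem bd_single (n : ℕ) : Bd P 1 (Finsupp.single n (1 : ℝ)) := by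
  intro f hf
  refine le_trans (abs_pr_le hf _) ?_
  refine le_trans (Finset.sum_le_sum_of_subset_of_nonneg (Finsupp.support_single_subset)
    (fun _ _ _ => abs_nonneg _)) ?_
  simp

theorem emb_one (M : Model P X) (n : ℕ) : M.emb (Finsupp.single n 1) = M.e (Sum.inr n) := by
  rw [M.emb_single, one_smul]

variable [CompleteSpace X]

theorem prodLim (hO : S_OPR) (hC : S_CZ) (hSh : S_SHR) (hMul : S_MUL) (hR : S_RBAS)
    (M : Model P X) (T S : X →L[ℝ] X) :
    Tendsto (fun n => M.e' (Sum.inr n) (S (T (M.e (Sum.inr n)))) -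
      M.e' (Sum.inr n) (T (M.e (Sum.inr n))) * M.e' (Sum.inr n) (S (M.e (Sum.inr n))))
      atTop (𝓝 0) := by
  set K : ℝ := ‖T‖ + 1 with hK
  have hK0 : 0 < K := by positivity
  set v : ℕ → ℝ := fun n => M.e' (Sum.inr n) (T (M.e (Sum.inr n))) with hv
  have hvb : ∀ n, |v n| ≤ K := by
    intro n
    have h1 := abs_er M n (T (M.e (Sum.inr n)))
    have h2 := T.le_opNorm (M.e (Sum.inr n))
    have h3 := M.norm_e (Sum.inr n)
    have h4 : ‖T‖ * ‖M.e (Sum.inr n)‖ ≤ ‖T‖ * 1 := mul_le_mul_of_nonneg_left h3 (norm_nonneg _)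
    show |M.e' (Sum.inr n) (T (M.e (Sum.inr n)))| ≤ K
    linarith
  obtain ⟨D, hDn, hD⟩ := hMul P X M (Sum.elim (fun _ => 0) (fun n => v n / K)) (by
    rintro (n | n)
    · simp
    · simp only [Sum.elim_inr, abs_div, abs_of_pos hK0]
      rw [div_le_one hK0]
      exact hvb n)
  obtain ⟨L, hLn, hL⟩ := hMul P X M (Sum.elim (fun _ => 1) (fun _ => 0)) (by
    rintro (n | n) <;> simp)
  obtain ⟨R, hRn, hRR⟩ := hMul P X M (Sum.elim (fun _ => 0) (fun _ => 1)) (by
    rintro (n | n) <;> simp)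
  set T' : X →L[ℝ] X := T - K • D with hT'
  have hT'e : ∀ x, T' x = T x - K • D x := fun x => rfl
  have hdiag : ∀ a, M.e' (Sum.inr a) (T' (M.e (Sum.inr a))) = 0 := by
    intro a
    rw [hT'e, map_sub, map_smul, hD, M.bi]
    simp only [Sum.elim_inr, if_true, smul_eq_mul, mul_one, hv]
    field_simp
    ring
  have hDe : ∀ n, K • D (M.e (Sum.inr n)) = v n • M.e (Sum.inr n) := by
    intro n
    refine M.ext (fun i => ?_)
    rw [map_smul, map_smul, hD, M.bi]
    rcases i with a | a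
    · simp
    · by_cases h : a = n
      · subst h
        simp only [Sum.elim_inr, if_true, smul_eq_mul, mul_one]
        field_simp
      · simp [h]
  have hdec : ∀ n, T (M.e (Sum.inr n)) = v n • M.e (Sum.inr n) +
      (R (T' (M.e (Sum.inr n))) + L (T' (M.e (Sum.inr n)))) := by
    intro n
    have h1 : R (T' (M.e (Sum.inr n))) + L (T' (M.e (Sum.inr n))) = T' (M.e (Sum.inr n)) := by
      refine M.ext (fun i => ?_)
      rw [map_add, hRR, hL]
      rcases i with a | a <;> simp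
    rw [h1, hT'e, hDe]
    abel
  -- the part in Z
  have hz : Tendsto (fun n => M.e' (Sum.inr n) (S (R (T' (M.e (Sum.inr n)))))) atTop (𝓝 0) := by
    rw [Metric.tendsto_atTop]
    intro ε hε
    obtain ⟨k0, hk0⟩ := hO P X M T' hdiag 1 _ _ le_rfl (hR P) (ε / (2 * (‖S‖ + 1)))
      (by positivity)
    refine ⟨k0, fun n hn => ?_⟩
    have h1 : ‖R (T' (M.e (Sum.inr n)))‖ ≤ ε / (2 * (‖S‖ + 1)) := by
      refine M.n3 _ _ (by positivity) (fun a => ?_) (fun f hf => ?_)
      · rw [hRR]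
        simp only [Sum.elim_inl, zero_mul, abs_zero]
        positivity
      · have h2 := hk0 n hn f hf
        rw [emb_one] at h2
        have h3 : (fun a => M.e' (Sum.inr a) (R (T' (M.e (Sum.inr n))))) =
            M.co (T' (M.e (Sum.inr n))) := by
          funext a
          rw [hRR]
          simp [Model.co]
        rw [h3]
        exact h2
    rw [Real.dist_eq, sub_zero]
    have h4 := abs_er M n (S (R (T' (M.e (Sum.inr n)))))
    have h5 := S.le_opNorm (R (T' (M.e (Sum.inr n))))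
    have h6 : ‖S‖ * ‖R (T' (M.e (Sum.inr n)))‖ ≤ ‖S‖ * (ε / (2 * (‖S‖ + 1))) :=
      mul_le_mul_of_nonneg_left h1 (norm_nonneg _)
    have h7 : ‖S‖ * (ε / (2 * (‖S‖ + 1))) ≤ ε / 2 := by
      have h8 : (‖S‖ + 1) * (ε / (2 * (‖S‖ + 1))) = ε / 2 := by
        have : (‖S‖ + 1) ≠ 0 := by positivity
        field_simp
      have h9 : ‖S‖ * (ε / (2 * (‖S‖ + 1))) ≤ (‖S‖ + 1) * (ε / (2 * (‖S‖ + 1))) :=
        mul_le_mul_of_nonneg_right (by linarith) (by positivity)
      linarith
    linarith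
  -- the part in c_0
  have hh : Tendsto (fun n => M.e' (Sum.inr n) (S (L (T' (M.e (Sum.inr n)))))) atTop (𝓝 0) := by
    set B : ℝ := ‖T'‖ + 1 with hB
    have hB0 : 0 < B := by positivity
    have hhb : ∀ k, ‖B⁻¹ • L (T' (M.e (Sum.inr k)))‖ ≤ 1 := by
      intro k
      rw [norm_smul, norm_inv, Real.norm_of_nonneg hB0.le]
      have h1 := hLn (T' (M.e (Sum.inr k)))
      have h2 := T'.le_opNorm (M.e (Sum.inr k))
      have h3 := M.norm_e (Sum.inr k)
      have h4 : ‖T'‖ * ‖M.e (Sum.inr k)‖ ≤ ‖T'‖ * 1 := mul_le_mul_of_nonneg_left h3 (norm_nonneg _)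
      rw [inv_mul_le_iff₀ hB0, mul_one]
      linarith
    have hh0 : ∀ k a, M.e' (Sum.inr a) (B⁻¹ • L (T' (M.e (Sum.inr k)))) = 0 := by
      intro k a
      rw [map_smul, hL]
      simp
    have hh1 : ∀ a, Tendsto (fun k => M.e' (Sum.inl a) (B⁻¹ • L (T' (M.e (Sum.inr k))))) atTop
        (𝓝 0) := by
      intro a
      have h1 : Tendsto (fun k => M.e' (Sum.inl a) (T' (M.e (Sum.inr k)))) atTop (𝓝 0) := by
        rw [Metric.tendsto_atTop]
        intro ε hε
        obtain ⟨N, hN⟩ := hSh P X M ((M.e' (Sum.inl a)).comp T') (ε / 2) (by positivity)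
        refine ⟨N, fun n hn => ?_⟩
        have h2 := hN (Finsupp.single n 1) (by
          intro b hb
          have := Finsupp.support_single_subset hb
          rw [Finset.mem_singleton] at this
          omega) (bd_single n)
        rw [emb_one] at h2
        rw [Real.dist_eq, sub_zero]
        have h3 : ((M.e' (Sum.inl a)).comp T') (M.e (Sum.inr n)) =
          M.e' (Sum.inl a) (T' (M.e (Sum.inr n))) := rfl
        rw [h3] at h2
        linarith
      have h2 : (fun k => M.e' (Sum.inl a) (B⁻¹ • L (T' (M.e (Sum.inr k))))) =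
          fun k => B⁻¹ * M.e' (Sum.inl a) (T' (M.e (Sum.inr k))) := by
        funext k
        rw [map_smul, hL]
        simp
      rw [h2]
      simpa using h1.const_mul B⁻¹
    rw [Metric.tendsto_atTop]
    intro ε hε
    obtain ⟨k0, hk0⟩ := hC P X M S (fun k => B⁻¹ • L (T' (M.e (Sum.inr k)))) hhb hh0 hh1
      (ε / (2 * B)) (by positivity)
    refine ⟨k0, fun n hn => ?_⟩
    have h1 := hk0 n hn (Finsupp.single n 1) (InK.single P n)
    rw [pr_single] at h1
    simp only [Rat.cast_one, one_mul, Model.co, map_smul, smul_eq_mul] at h1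
    rw [abs_mul, abs_inv, abs_of_pos hB0, inv_mul_le_iff₀ hB0] at h1
    have h2 : B * (ε / (2 * B)) = ε / 2 := by field_simp
    rw [h2] at h1
    rw [Real.dist_eq, sub_zero]
    linarith
  have hsum := hz.add hh
  rw [add_zero] at hsum
  refine hsum.congr (fun n => ?_)
  have h1 : M.e' (Sum.inr n) (S (T (M.e (Sum.inr n)))) =
      v n * M.e' (Sum.inr n) (S (M.e (Sum.inr n))) +
      (M.e' (Sum.inr n) (S (R (T' (M.e (Sum.inr n))))) +
        M.e' (Sum.inr n) (S (L (T' (M.e (Sum.inr n)))))) := by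
    conv_lhs => rw [hdec n]
    simp only [map_add, map_smul, smul_eq_mul]
  rw [h1]
  show _ = v n * _ + _ - v n * _
  ring

end

theorem nsq (hO : S_OPR) (hC : S_CZ) (hSh : S_SHR) (hMul : S_MUL) (hR : S_RBAS) : S_NSQ := by
  intro P X _ _ _ M
  rintro ⟨V, U, hUV⟩
  set V1 : X →L[ℝ] X := V.comp (ContinuousLinearMap.inl ℝ X X) with hV1
  set V2 : X →L[ℝ] X := V.comp (ContinuousLinearMap.inr ℝ X X) with hV2
  set U1 : X →L[ℝ] X := (ContinuousLinearMap.fst ℝ X X).comp U with hU1
  set U2 : X →L[ℝ] X := (ContinuousLinearMap.snd ℝ X X).comp U with hU2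
  have hid : ∀ p : X × X, U (V p) = p := by
    intro p
    have := congrArg (fun F : (X × X) →L[ℝ] (X × X) => F p) hUV
    simpa using this
  have e11 : ∀ x, U1 (V1 x) = x := by
    intro x
    show (U (V (x, 0))).1 = x
    rw [hid]
  have e21 : ∀ x, U2 (V1 x) = 0 := by
    intro x
    show (U (V (x, 0))).2 = 0
    rw [hid]
  have e12 : ∀ x, U1 (V2 x) = 0 := by
    intro x
    show (U (V (0, x))).1 = 0
    rw [hid]
  have e22 : ∀ x, U2 (V2 x) = x := by
    intro x
    show (U (V (0, x))).2 = x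
    rw [hid]
  have t11 := prodLim hO hC hSh hMul hR M V1 U1
  have t21 := prodLim hO hC hSh hMul hR M V1 U2
  have t12 := prodLim hO hC hSh hMul hR M V2 U1
  have t22 := prodLim hO hC hSh hMul hR M V2 U2
  simp only [e11, e21, e12, e22, M.bi, if_true, map_zero, zero_sub] at t11 t21 t12 t22
  have l11 : Tendsto (fun n => M.e' (Sum.inr n) (V1 (M.e (Sum.inr n))) *
      M.e' (Sum.inr n) (U1 (M.e (Sum.inr n)))) atTop (𝓝 1) := by
    have := (tendsto_const_nhds (x := (1 : ℝ))).sub t11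
    simpa using this
  have l22 : Tendsto (fun n => M.e' (Sum.inr n) (V2 (M.e (Sum.inr n))) *
      M.e' (Sum.inr n) (U2 (M.e (Sum.inr n)))) atTop (𝓝 1) := by
    have := (tendsto_const_nhds (x := (1 : ℝ))).sub t22
    simpa using this
  have l21 : Tendsto (fun n => M.e' (Sum.inr n) (V1 (M.e (Sum.inr n))) *
      M.e' (Sum.inr n) (U2 (M.e (Sum.inr n)))) atTop (𝓝 0) := by
    have := t21.neg
    simpa using this
  have l12 : Tendsto (fun n => M.e' (Sum.inr n) (V2 (M.e (Sum.inr n))) *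
      M.e' (Sum.inr n) (U1 (M.e (Sum.inr n)))) atTop (𝓝 0) := by
    have := t12.neg
    simpa using this
  have a1 := l11.mul l22
  have a2 := l21.mul l12
  rw [one_mul] at a1
  rw [zero_mul] at a2
  have a3 := a1.congr (f₂ := fun n => (M.e' (Sum.inr n) (V1 (M.e (Sum.inr n))) *
      M.e' (Sum.inr n) (U2 (M.e (Sum.inr n)))) * (M.e' (Sum.inr n) (V2 (M.e (Sum.inr n))) *
      M.e' (Sum.inr n) (U1 (M.e (Sum.inr n))))) (fun n => by ring)
  exact one_ne_zero (tendsto_nhds_unique a3 a2)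

end Pool.Agent.W140.GU
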